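import Mathlib
import Pool.Agent.Work.MP_9ec85a_gt.Final

/-!
# There is no discrete weak Mycielski set in Euclidean 3-space

Full (negative) answer to Q1 of MP_9ec85a_gt.
-/

set_option autoImplicit false

namespace Pool.Agent.Results.MP_9ec85a_gt.NoDiscreteWeakMycielski

/-- Two subsets of Euclidean 3-space are congruent if some isometry of the whole space
maps the first onto the second. -/
def Congruent (A B : Set (EuclideanSpace ℝ (Fin 3))) : Prop :=
  ∃ g : EuclideanSpace ℝ (Fin 3) ≃ᵢ EuclideanSpace ℝ (Fin 3), g '' A = B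

/-- `X` is a weak Mycielski set: there are two distinct points `p, q` of `X` such that
removing either one of them leaves a set congruent to `X`. -/
def IsWeakMycielski (X : Set (EuclideanSpace ℝ (Fin 3))) : Prop :=
  ∃ p ∈ X, ∃ q ∈ X, p ≠ q ∧ Congruent (X \ {p}) X ∧ Congruent (X \ {q}) X

/-- `X` is discrete: every point of `X` is isolated in `X`. -/
def IsDiscreteSet (X : Set (EuclideanSpace ℝ (Fin 3))) : Prop :=
  ∀ x ∈ X, ∃ ε > 0, ∀ y ∈ X, y ≠ x → ε ≤ dist x y

theorem result : ¬ ∃ X : Set (EuclideanSpace ℝ (Fin 3)), IsWeakMycielski X ∧ IsDiscreteSet X := by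
  rintro ⟨X, ⟨p, hp, q, hq, hpq, ⟨g, hg⟩, ⟨h, hh⟩⟩, hdisc⟩
  have key : ∀ (f : EuclideanSpace ℝ (Fin 3) ≃ᵢ EuclideanSpace ℝ (Fin 3))
      (A B : Set (EuclideanSpace ℝ (Fin 3))), f '' A = B → f.symm '' B = A := by
    rintro f A _ rfl
    rw [Set.image_image]
    simp
  have hg' : g.symm '' X = X \ {p} := key g _ _ hg
  have hh' : h.symm '' X = X \ {q} := key h _ _ hh
  have D : Pool.Agent.Work.MP_9ec85a_gt.Data X g.symm.toRealAffineIsometryEquiv
      h.symm.toRealAffineIsometryEquiv p q := by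
    refine ⟨hp, hq, hpq, ?_, ?_, ?_⟩
    · rw [IsometryEquiv.coeFn_toRealAffineIsometryEquiv]; exact hg'
    · rw [IsometryEquiv.coeFn_toRealAffineIsometryEquiv]; exact hh'
    · intro x hx
      obtain ⟨ε, hε, H⟩ := hdisc x hx
      refine ⟨ε, hε, fun y hy hyx => ?_⟩
      by_contra hne
      have := H y hy hne
      rw [dist_comm] at this
      exact absurd hyx (not_lt.mpr this)
  exact D.false_of_finrank (by simp)

end Pool.Agent.Results.MP_9ec85a_gt.NoDiscreteWeakMycielski
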